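import Mathlib
import Pool.Agent.E8helper42.AZ.Stm3
import Pool.Agent.E8helper20.AZ.Fin

/-!
# Project AZ: the exponential integral and its derivatives
-/

set_option autoImplicit false

namespace Pool.Agent.E8helper41.AZ

open MeasureTheory Set
open Pool.Agent.E8helper42.AZ Pool.Agent.E8helper20.AZ
open scoped Nat

theorem beu2 : S_BEU2 := by
  intro j t
  rw [← T_eq]
  set f : ℕ → ℝ × ℝ × ℝ → ℝ := fun n p =>
    beu p.1 p.2.1 p.2.2 ^ (n + j) * t ^ n / (n.factorial : ℝ) * K p with hf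
  have hbd : ∀ n, ∀ x ∈ Ioo (0 : ℝ) 1, ∀ y ∈ Ioo (0 : ℝ) 1, ∀ z ∈ Ioo (0 : ℝ) 1,
      |f n (x, y, z)| ≤ |t| ^ n / (n ! : ℝ) * K (x, y, z) := by
    intro n x hx y hy z hz
    have hK := K_pos hx hy hz
    have hb := beu_mem hx hy hz
    simp only [hf]
    rw [abs_mul, abs_of_pos hK, abs_div, abs_mul, abs_pow, abs_pow, Nat.abs_cast]
    have h1 : |beu x y z| ^ (n + j) ≤ 1 := pow_le_one₀ (abs_nonneg _) hb
    have h2 : |beu x y z| ^ (n + j) * |t| ^ n ≤ |t| ^ n := by
      calc _ ≤ 1 * |t| ^ n := mul_le_mul_of_nonneg_right h1 (by positivity)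
        _ = _ := one_mul _
    gcongr
  have hmeas : ∀ n, Measurable (f n) := fun n =>
    ((beu_meas.pow_const (n + j)).mul_const (t ^ n) |>.div_const _).mul K_meas
  have hint : ∀ n, Integrable (f n) T := fun n => dom (hmeas n) _ (hbd n)
  have hsum : Summable fun n => ∫ p, ‖f n p‖ ∂T := by
    refine Summable.of_nonneg_of_le (fun n => integral_nonneg fun p => norm_nonneg _) (fun n => ?_)
      ((Real.summable_pow_div_factorial |t|).mul_right (∫ p, K p ∂T))
    rw [← MeasureTheory.integral_const_mul]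
    refine integral_mono_ae (hint n).norm (K_int.const_mul _) ?_
    filter_upwards [ae_T] with p hp
    obtain ⟨x, y, z⟩ := p
    exact hbd n x hp.1 y hp.2.1 z hp.2.2
  have h := integral_tsum_of_summable_integral_norm hint hsum
  have e1 : ∀ n, ∫ p, f n p ∂T = 2 * (Jn (n + j) * t ^ n / (n.factorial : ℝ)) := by
    intro n
    have : ∀ p : ℝ × ℝ × ℝ, f n p = (t ^ n / (n.factorial : ℝ)) *
        (beu p.1 p.2.1 p.2.2 ^ (n + j) * K p) := fun p => by
      simp only [hf]
      ring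
    simp only [this]
    rw [MeasureTheory.integral_const_mul, int_beu]
    ring
  simp only [e1] at h
  rw [tsum_mul_left] at h
  rw [h]
  refine integral_congr_ae (Filter.Eventually.of_forall fun p => ?_)
  simp only [hf]
  rw [tsum_mul_right]
  have h3 : ∑' n : ℕ, beu p.1 p.2.1 p.2.2 ^ (n + j) * t ^ n / (n.factorial : ℝ) =
      beu p.1 p.2.1 p.2.2 ^ j * Real.exp (t * beu p.1 p.2.1 p.2.2) := by
    rw [Real.exp_eq_exp_ℝ, NormedSpace.exp_eq_tsum_div, ← tsum_mul_left]
    refine tsum_congr fun n => ?_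
    rw [pow_add, mul_pow]
    ring
  rw [h3]
  unfold K
  ring

end Pool.Agent.E8helper41.AZ

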