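import Mathlib
import Pool.Agent.E8helper42.AZ.Stm3

/-!
# Project AZ: from the values of `θ^j` to the values of the derivatives
-/

set_option autoImplicit false

namespace Pool.Agent.E8helper41.AZ

open Pool.Agent.E8helper42.AZ

lemma summ_val (c : ℕ → ℚ) (hc : EFc c) (j : ℕ) (t : ℚ) :
    Summable fun n : ℕ => (n : ℝ) ^ j * (c n : ℝ) * (t : ℝ) ^ n / (n.factorial : ℝ) := by
  obtain ⟨C, hC, h1, -⟩ := hc
  have hs : Summable fun n : ℕ => C * ((2 ^ j * C * |(t : ℝ)|) ^ n / (n.factorial : ℝ)) :=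
    (Real.summable_pow_div_factorial _).mul_left C
  refine Summable.of_norm_bounded hs fun n => ?_
  rw [Real.norm_eq_abs, abs_div, abs_mul, abs_mul, abs_pow, abs_pow, Nat.abs_cast, Nat.abs_cast,
    ← mul_div_assoc]
  apply div_le_div_of_nonneg_right _ (by positivity)
  have h2 : (n : ℝ) ^ j ≤ (2 ^ j) ^ n := by
    have : (n : ℝ) ≤ 2 ^ n := by exact_mod_cast (Nat.lt_two_pow_self).le
    calc (n : ℝ) ^ j ≤ (2 ^ n) ^ j := pow_le_pow_left₀ (by positivity) this j
      _ = (2 ^ j) ^ n := by rw [← pow_mul, ← pow_mul, mul_comm]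
  have h3 := h1 n
  calc (n : ℝ) ^ j * |(c n : ℝ)| * |(t : ℝ)| ^ n ≤ (2 ^ j) ^ n * C ^ (n + 1) * |(t : ℝ)| ^ n := by
        gcongr
    _ = C * (2 ^ j * C * |(t : ℝ)|) ^ n := by
        rw [mul_pow, mul_pow, pow_succ]
        ring

/-- the inverse transformation -/
def bw {M : Type} [AddCommGroup M] [Module ℚ M] (t : ℚ) (x : Fin 4 → M) : Fin 4 → M :=
  ![x 0, t⁻¹ • x 1, (t⁻¹ ^ 2) • (x 2 - x 1), (t⁻¹ ^ 3) • (x 3 - (3 : ℚ) • x 2 + (2 : ℚ) • x 1)]

/-- the transformation -/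
def fw {M : Type} [AddCommGroup M] [Module ℚ M] (t : ℚ) (x : Fin 4 → M) : Fin 4 → M :=
  ![x 0, t • x 1, t ^ 2 • x 2 + t • x 1, t ^ 3 • x 3 + (3 * t ^ 2) • x 2 + t • x 1]

lemma bw_fw {M : Type} [AddCommGroup M] [Module ℚ M] {t : ℚ} (ht : t ≠ 0) (x : Fin 4 → M) :
    bw t (fw t x) = x := by
  funext j
  fin_cases j
  · rfl
  · simp only [bw, fw, Fin.mk_one, Matrix.cons_val_one, Matrix.cons_val_zero]
    match_scalars
    field_simp
  · show (t⁻¹ ^ 2) • ((t ^ 2 • x 2 + t • x 1) - t • x 1) = x 2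
    match_scalars <;> field_simp
    ring
  · show (t⁻¹ ^ 3) • ((t ^ 3 • x 3 + (3 * t ^ 2) • x 2 + t • x 1) - (3 : ℚ) • (t ^ 2 • x 2 + t • x 1) +
      (2 : ℚ) • (t • x 1)) = x 3
    match_scalars <;> field_simp
    · ring
    · ring

lemma map_bw {M N : Type} [AddCommGroup M] [Module ℚ M] [AddCommGroup N] [Module ℚ N] (f : M →ₗ[ℚ] N) (t : ℚ)
    (x : Fin 4 → M) (j : Fin 4) : f (bw t x j) = bw t (fun i => f (x i)) j := by
  fin_cases j
  · rfl
  · show f (t⁻¹ • x 1) = t⁻¹ • f (x 1)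
    rw [map_smul]
  · show f ((t⁻¹ ^ 2) • (x 2 - x 1)) = (t⁻¹ ^ 2) • (f (x 2) - f (x 1))
    rw [map_smul, map_sub]
  · show f ((t⁻¹ ^ 3) • (x 3 - (3 : ℚ) • x 2 + (2 : ℚ) • x 1)) =
      (t⁻¹ ^ 3) • (f (x 3) - (3 : ℚ) • f (x 2) + (2 : ℚ) • f (x 1))
    rw [map_smul, map_add, map_sub, map_smul, map_smul]

lemma shift (g : ℕ → ℝ) (hg : Summable g) (k : ℕ) (h0 : ∀ i < k, g i = 0) : ∑' n, g n = ∑' n, g (n + k) := by
  rw [← hg.sum_add_tsum_nat_add k, Finset.sum_eq_zero fun i hi => h0 i (Finset.mem_range.1 hi), zero_add]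

lemma dv_eq (c : ℕ → ℚ) (hc : EFc c) {t : ℚ} (ht : t ≠ 0) (j : Fin 4) :
    dv c t j = bw t (fun i : Fin 4 => val c t i) j := by
  have htR : (t : ℝ) ≠ 0 := by exact_mod_cast ht
  have S := fun j : ℕ => summ_val c hc j t
  fin_cases j
  · show dv c t 0 = val c t 0
    unfold dv val
    refine tsum_congr fun n => ?_
    simp
  · show dv c t 1 = t⁻¹ • val c t 1
    have h : val c t 1 = t * dv c t 1 := by
      unfold val
      rw [shift _ (S 1) 1 (by intro i hi; interval_cases i; simp), dv, ← tsum_mul_left]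
      refine tsum_congr fun n => ?_
      rw [Nat.factorial_succ]
      push_cast
      have : (n.factorial : ℝ) ≠ 0 := by positivity
      have : (n : ℝ) + 1 ≠ 0 := by positivity
      field_simp
      ring
    rw [h, Rat.smul_def]
    push_cast
    field_simp
  · show dv c t 2 = (t⁻¹ ^ 2) • (val c t 2 - val c t 1)
    have h : val c t 2 - val c t 1 = t ^ 2 * dv c t 2 := by
      unfold val
      rw [← (S 2).tsum_sub (S 1), shift _ ((S 2).sub (S 1)) 2 (by intro i hi; interval_cases i <;> simp), dv,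
        ← tsum_mul_left]
      refine tsum_congr fun n => ?_
      rw [Nat.factorial_succ, Nat.factorial_succ]
      push_cast
      have : (n.factorial : ℝ) ≠ 0 := by positivity
      have : (n : ℝ) + 1 ≠ 0 := by positivity
      have : (n : ℝ) + 1 + 1 ≠ 0 := by positivity
      field_simp
      ring
    rw [h, Rat.smul_def]
    push_cast
    field_simp
  · show dv c t 3 = (t⁻¹ ^ 3) • (val c t 3 - (3 : ℚ) • val c t 2 + (2 : ℚ) • val c t 1)
    have h : val c t 3 - (3 : ℚ) • val c t 2 + (2 : ℚ) • val c t 1 = t ^ 3 * dv c t 3 := by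
      unfold val
      rw [Rat.smul_def, Rat.smul_def, ← tsum_mul_left, ← tsum_mul_left, ← (S 3).tsum_sub ((S 2).mul_left _),
        ← ((S 3).sub ((S 2).mul_left _)).tsum_add ((S 1).mul_left _),
        shift _ (((S 3).sub ((S 2).mul_left _)).add ((S 1).mul_left _)) 3
          (by
            intro i hi
            interval_cases i
            · simp
            · norm_num [Nat.factorial]
              ring
            · norm_num [Nat.factorial]
              ring), dv, ← tsum_mul_left]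
      refine tsum_congr fun n => ?_
      rw [Nat.factorial_succ, Nat.factorial_succ, Nat.factorial_succ]
      push_cast
      have : (n.factorial : ℝ) ≠ 0 := by positivity
      have : (n : ℝ) + 1 ≠ 0 := by positivity
      have : (n : ℝ) + 1 + 1 ≠ 0 := by positivity
      have : (n : ℝ) + 2 + 1 ≠ 0 := by positivity
      field_simp
      ring
    rw [h, Rat.smul_def]
    push_cast
    field_simp

open MvPolynomial

/-- the index set -/
abbrev Ix (T : Finset ℚ) : Type := (T × Fin 4) ⊕ (T × Fin 4)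

/-- the substitution -/
noncomputable def sb (T : Finset ℚ) (g : ℚ → (Fin 4 → MvPolynomial (Ix T) ℚ) → Fin 4 → MvPolynomial (Ix T) ℚ)
    (s : Ix T) : MvPolynomial (Ix T) ℚ :=
  s.elim (fun p => g (p.1 : ℚ) (fun i => X (Sum.inl (p.1, i))) p.2)
    (fun p => g (p.1 : ℚ) (fun i => X (Sum.inr (p.1, i))) p.2)

lemma ev_bw {T : Finset ℚ} {R : Type} [CommRing R] [Algebra ℚ R] (x : Ix T → R) (s : Ix T) :
    aeval x (sb T bw s) = s.elim (fun p => bw (p.1 : ℚ) (fun i => x (Sum.inl (p.1, i))) p.2)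
      (fun p => bw (p.1 : ℚ) (fun i => x (Sum.inr (p.1, i))) p.2) := by
  rcases s with p | p
  · have h := map_bw (aeval x : MvPolynomial (Ix T) ℚ →ₐ[ℚ] R).toLinearMap (p.1 : ℚ)
      (fun i => X (Sum.inl (p.1, i))) p.2
    simp only [AlgHom.toLinearMap_apply, aeval_X] at h
    exact h
  · have h := map_bw (aeval x : MvPolynomial (Ix T) ℚ →ₐ[ℚ] R).toLinearMap (p.1 : ℚ)
      (fun i => X (Sum.inr (p.1, i))) p.2
    simp only [AlgHom.toLinearMap_apply, aeval_X] at h
    exact h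

lemma inv_sb {T : Finset ℚ} (hT : ∀ t ∈ T, t ≠ 0) (P : MvPolynomial (Ix T) ℚ) :
    aeval (sb T fw) (aeval (sb T bw) P) = P := by
  have h : (aeval (sb T fw) : MvPolynomial (Ix T) ℚ →ₐ[ℚ] MvPolynomial (Ix T) ℚ).comp
      (aeval (sb T bw)) = AlgHom.id ℚ _ := by
    apply MvPolynomial.algHom_ext
    intro s
    rw [AlgHom.comp_apply, aeval_X, AlgHom.id_apply, ev_bw]
    rcases s with p | p
    · exact congrFun (bw_fw (hT p.1 p.1.2) (fun i => (X (Sum.inl (p.1, i)) : MvPolynomial (Ix T) ℚ))) p.2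
    · exact congrFun (bw_fw (hT p.1 p.1.2) (fun i => (X (Sum.inr (p.1, i)) : MvPolynomial (Ix T) ℚ))) p.2
  exact DFunLike.congr_fun h P

/-- the values of the derivatives -/
noncomputable def dvs (a b : ℕ → ℚ) (T : Finset ℚ) (s : Ix T) : ℝ :=
  s.elim (fun p => dv a p.1 p.2) (fun p => dv b p.1 p.2)

lemma ev_dvs {a b : ℕ → ℚ} (ha : EFc a) (hb : EFc b) {T : Finset ℚ} (hT : ∀ t ∈ T, t ≠ 0)
    (P : MvPolynomial (Ix T) ℚ) : aeval (dvs a b T) P = aeval (vals a b T) (aeval (sb T bw) P) := by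
  have h : (aeval (dvs a b T) : MvPolynomial (Ix T) ℚ →ₐ[ℚ] ℝ) =
      (aeval (vals a b T) : MvPolynomial (Ix T) ℚ →ₐ[ℚ] ℝ).comp (aeval (sb T bw)) := by
    apply MvPolynomial.algHom_ext
    intro s
    rw [AlgHom.comp_apply, aeval_X, aeval_X, ev_bw]
    rcases s with p | p
    · exact dv_eq a ha (hT p.1 p.1.2) p.2
    · exact dv_eq b hb (hT p.1 p.1.2) p.2
  exact DFunLike.congr_fun h P

theorem dvt : S_DV := by
  intro a b ha hb T hT hv
  show AlgebraicIndependent ℚ (dvs a b T)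
  rw [algebraicIndependent_iff]
  intro P hP
  rw [ev_dvs ha hb hT] at hP
  have h := (algebraicIndependent_iff.1 hv) _ hP
  rw [← inv_sb hT P, h, map_zero]

end Pool.Agent.E8helper41.AZ

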