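import Mathlib
import Pool.Agent.E8helper42.AZ.Stm3

/-!
# Project AZ: linear form of the derivatives
-/

set_option autoImplicit false

namespace Pool.Agent.E8helper41.AZ

open Pool.Agent.E8helper42.AZ

lemma summ_dv (c : ℕ → ℚ) (hc : EFc c) (j : ℕ) (t : ℚ) :
    Summable fun n : ℕ => (c (n + j) : ℝ) * (t : ℝ) ^ n / (n.factorial : ℝ) := by
  obtain ⟨C, hC, h1, -⟩ := hc
  have hC0 : 0 < C := by linarith
  have hs : Summable fun n : ℕ => C ^ (j + 1) * ((C * |(t : ℝ)|) ^ n / (n.factorial : ℝ)) :=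
    (Real.summable_pow_div_factorial _).mul_left _
  refine Summable.of_norm_bounded hs fun n => ?_
  rw [Real.norm_eq_abs, abs_div, abs_mul, abs_pow, Nat.abs_cast, ← mul_div_assoc]
  apply div_le_div_of_nonneg_right _ (by positivity)
  calc |(c (n + j) : ℝ)| * |(t : ℝ)| ^ n ≤ C ^ (n + j + 1) * |(t : ℝ)| ^ n := by
        gcongr
        exact h1 (n + j)
    _ = C ^ (j + 1) * (C * |(t : ℝ)|) ^ n := by
        rw [mul_pow]
        ring

theorem iv : S_IV := by
  intro a b ha hb hJ j t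
  unfold dv
  rw [← tsum_mul_left, ← ((summ_dv a ha j t).mul_left z3).tsum_sub (summ_dv b hb j t)]
  apply tsum_congr
  intro n
  rw [hJ (n + j)]
  ring

end Pool.Agent.E8helper41.AZ

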