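import Mathlib
import Pool.Agent.E8helper42.AZ.Stm2

/-!
# Project AZ: linear functionals
-/

set_option autoImplicit false

namespace Pool.Agent.E8helper41.AZ

open Pool.Agent.E8helper42.AZ

lemma li : LinearIndependent ℚ ![17 + 12 * √2, 17 - 12 * √2] := by
  rw [LinearIndependent.pair_iff]
  intro s t h
  have h1 : ((s : ℝ) * 17 + t * 17) + ((s : ℝ) * 12 - t * 12) * √2 = 0 := by
    rw [Rat.smul_def, Rat.smul_def] at h
    linarith
  have h2 : s * 12 - t * 12 = 0 := by
    by_contra h3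
    have h4 : √2 = ((-(s * 17 + t * 17) / (s * 12 - t * 12) : ℚ) : ℝ) := by
      have h5 : ((s * 12 - t * 12 : ℚ) : ℝ) ≠ 0 := by exact_mod_cast h3
      push_cast at h5 ⊢
      rw [eq_div_iff h5]
      linarith
    exact irrational_sqrt_two ⟨_, h4.symm⟩
  have h3 : ((s : ℝ) * 12 - t * 12) = 0 := by exact_mod_cast h2
  rw [h3, zero_mul, add_zero] at h1
  have h4 : s * 17 + t * 17 = 0 := by exact_mod_cast h1
  constructor <;> linarith

theorem kap : S_KAP := by
  have key : ∀ f : Fin 2 → ℚ, ∃ κ : ℝ →ₗ[ℚ] ℚ, κ (17 + 12 * √2) = f 0 ∧ κ (17 - 12 * √2) = f 1 := by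
    intro f
    let b := Module.Basis.span li
    obtain ⟨κ, hκ⟩ := LinearMap.exists_extend (b.constr ℚ f)
    have h : ∀ i, κ (![17 + 12 * √2, 17 - 12 * √2] i) = f i := by
      intro i
      have h1 : κ (b i : ℝ) = b.constr ℚ f (b i) := LinearMap.congr_fun hκ (b i)
      have h2 : (b i : ℝ) = ![17 + 12 * √2, 17 - 12 * √2] i := congrArg Subtype.val (Module.Basis.span_apply li i)
      rw [h2, b.constr_basis] at h1
      exact h1
    exact ⟨κ, h 0, h 1⟩
  exact ⟨key ![1, 0], key ![0, 1]⟩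

end Pool.Agent.E8helper41.AZ

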