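import Mathlib
import Pool.Agent.E8helper42.AZ.Stm2

/-!
# Project AZ: the assembly of the differential Galois argument
-/

set_option autoImplicit false

namespace Pool.Agent.E8helper41.AZ

open Pool.Agent.E8helper42.AZ

lemma amap_zero {ι : Type} {n : ℕ} {S S' : Type} [CommRing S] [CommRing S'] (f : S →+* S') :
    amap f (0 : Aff ι n S) = 0 := by
  funext i
  refine Prod.ext ?_ ?_
  · ext a b; simp [amap]
  · ext a; simp [amap]

lemma amap_add {ι : Type} {n : ℕ} {S S' : Type} [CommRing S] [CommRing S'] (f : S →+* S') (x y : Aff ι n S) :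
    amap f (x + y) = amap f x + amap f y := by
  funext i
  refine Prod.ext ?_ ?_
  · ext a b; simp [amap]
  · ext a; simp [amap]

lemma amap_smul {ι : Type} {n : ℕ} {S S' : Type} [CommRing S] [CommRing S'] (f : S →+* S') (c : S) (x : Aff ι n S) :
    amap f (c • x) = f c • amap f x := by
  funext i
  refine Prod.ext ?_ ?_
  · ext a b; simp [amap]
  · ext a; simp [amap]

/-- `amap` maps spans to spans -/
lemma amap_span {ι : Type} {n : ℕ} {R K : Type} [CommRing R] [CommRing K] (f : R →+* K) (s : Set (Aff ι n R))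
    (x : Aff ι n R) (hx : x ∈ Submodule.span R s) : amap f x ∈ Submodule.span K (amap f '' s) := by
  induction hx using Submodule.span_induction with
  | mem x h => exact Submodule.subset_span ⟨x, h, rfl⟩
  | zero => rw [amap_zero]; exact Submodule.zero_mem _
  | add x y _ _ hx hy => rw [amap_add]; exact Submodule.add_mem _ hx hy
  | smul c x _ hx => rw [amap_smul]; exact Submodule.smul_mem _ _ hx

lemma amap_span_tower {ι : Type} {n : ℕ} {F R K : Type} [CommRing F] [CommRing R] [CommRing K] [Algebra F R]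
    [Algebra R K] [Algebra F K] [IsScalarTower F R K] (s : Set (Aff ι n F))
    (x : Aff ι n R) (hx : x ∈ Submodule.span R (amap (algebraMap F R) '' s)) :
    amap (algebraMap R K) x ∈ Submodule.span K (amap (algebraMap F K) '' s) := by
  have h := amap_span (algebraMap R K) _ x hx
  rw [Set.image_image] at h
  have e : (fun x : Aff ι n F => amap (algebraMap R K) (amap (algebraMap F R) x)) = amap (algebraMap F K) := by
    funext y i
    refine Prod.ext ?_ ?_
    · ext a b; simp [amap, IsScalarTower.algebraMap_apply F R K]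
    · ext a; simp [amap, IsScalarTower.algebraMap_apply F R K]
  rwa [e] at h

/-- projection to a block -/
def pr (ι : Type) (n : ℕ) (S : Type) [CommRing S] (i : ι) : Aff ι n S →ₗ[S] Matrix (Fin n) (Fin n) S where
  toFun x := (x i).1
  map_add' _ _ := rfl
  map_smul' _ _ := rfl

lemma pr_span {ι : Type} {n : ℕ} {F K : Type} [CommRing F] [CommRing K] [Algebra F K] (h : Submodule F (Aff ι n F))
    (i : ι) (x : Aff ι n K) (hx : x ∈ Submodule.span K (amap (algebraMap F K) '' (h : Set (Aff ι n F)))) :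
    (x i).1 ∈ Submodule.span K ((fun M : Matrix (Fin n) (Fin n) F => M.map (algebraMap F K)) ''
      (h.map (pr ι n F i) : Set (Matrix (Fin n) (Fin n) F))) := by
  induction hx using Submodule.span_induction with
  | mem x hx =>
    obtain ⟨y, hy, rfl⟩ := hx
    exact Submodule.subset_span ⟨(y i).1, ⟨y, hy, rfl⟩, rfl⟩
  | zero => exact Submodule.zero_mem _
  | add x y _ _ hx hy => exact Submodule.add_mem _ hx hy
  | smul c x _ hx => exact Submodule.smul_mem _ _ hx

/-- the Leibniz rule for matrices -/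
lemma map_mul_der {R : Type} [CommRing R] [Algebra ℂ R] (θ : Derivation ℂ R R) {n : ℕ}
    (M N : Matrix (Fin n) (Fin n) R) : (M * N).map θ = M.map θ * N + M * N.map θ := by
  ext a b
  simp only [Matrix.map_apply, Matrix.mul_apply, Matrix.add_apply, map_sum, Derivation.leibniz, smul_eq_mul,
    ← Finset.sum_add_distrib]
  exact Finset.sum_congr rfl fun c _ => by ring

/-- the derivative of the inverse matrix -/
lemma der_inv {R : Type} [CommRing R] [Algebra ℂ R] (θ : Derivation ℂ R R) {n : ℕ}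
    (A Φ Ψ : Matrix (Fin n) (Fin n) R) (h1 : Φ * Ψ = 1) (h2 : Φ.map θ = A * Φ) : Ψ.map θ = -(Ψ * A) := by
  have h3 : (Φ * Ψ).map θ = 0 := by
    rw [h1]
    ext a b
    simp only [Matrix.map_apply, Matrix.one_apply, Matrix.zero_apply]
    split_ifs
    · exact θ.map_one_eq_zero
    · exact map_zero θ
  rw [map_mul_der, h2, mul_assoc, h1, mul_one] at h3
  have h4 : Ψ * Φ = 1 := mul_eq_one_comm.1 h1
  have h5 : Ψ * (A + Φ * Ψ.map θ) = 0 := by rw [h3, mul_zero]
  rw [mul_add, ← mul_assoc, h4, one_mul] at h5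
  exact eq_neg_of_add_eq_zero_right h5

/-- horizontality of `δ(Φ) Φ⁻¹` -/
lemma horiz {R : Type} [CommRing R] [Algebra ℂ R] (θ δ : Derivation ℂ R R) {n : ℕ}
    (A Φ Ψ : Matrix (Fin n) (Fin n) R) (h1 : Φ * Ψ = 1) (h2 : Φ.map θ = A * Φ) (h3 : A.map δ = 0)
    (h4 : ∀ a, θ (δ a) = δ (θ a)) :
    (Φ.map δ * Ψ).map θ + (Φ.map δ * Ψ) * A - A * (Φ.map δ * Ψ) = 0 := by
  have h5 : (Φ.map δ).map θ = A * Φ.map δ := by
    have : (Φ.map δ).map θ = (Φ.map θ).map δ := by
      ext a b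
      simp only [Matrix.map_apply]
      exact h4 _
    rw [this, h2, map_mul_der, h3, zero_mul, zero_add]
  rw [map_mul_der, h5, der_inv θ A Φ Ψ h1 h2]
  noncomm_ring

/-- conjugates of the elementary matrix -/
lemma single_conj {R : Type} [CommRing R] {n : ℕ} (Φ Ψ : Matrix (Fin n) (Fin n) R) (c : Fin n) (t : R) :
    Φ * Matrix.single c c t * Ψ = t • Matrix.vecMulVec (fun a => Φ a c) (fun b => Ψ c b) := by
  ext a b
  rw [Matrix.mul_apply]
  simp only [Matrix.smul_apply, Matrix.vecMulVec_apply, smul_eq_mul]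
  rw [Finset.sum_eq_single c]
  · rw [Matrix.mul_single_apply_same]
    ring
  · intro d _ hd
    rw [Matrix.mul_single_apply_of_ne _ _ _ _ _ hd, zero_mul]
  · intro hc
    exact absurd (Finset.mem_univ _) hc

theorem main : S_MAIN := by
  intro hSTAR hLA hML hKT hID hH hIRR ι _ _ n F R₀ R₁ _ _ _ _ _ _ _ _ _ _ _ _ _ θF θ₀ δ₀ θ₁ δ₁ hn hθ₀ hs₀ hδ₀ hcomm
    hθ₁ hs₁ hδ₁ A g hirr hnorat hreg hrk p hp hpc hst
  obtain ⟨h, hh, hbr, hnab⟩ := hH ι n F (θF.restrictScalars ℤ) p A g hst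
  have hKT0 := hKT hSTAR ι n F R₀ θF θ₀ δ₀ hθ₀ hs₀ hδ₀ p A g hst
  have hKT1 := hKT hSTAR ι n F R₁ θF θ₁ δ₁ hθ₁ hs₁ hδ₁ p A g hst
  rw [← hh] at hKT0 hKT1
  -- the nilpotent elements
  obtain ⟨Φ₀, Ψ₀, b₀, hinv₀, hΦ₀, hb₀, hN⟩ := hreg
  have h0 := hKT0 Φ₀ Ψ₀ b₀ hinv₀ hΦ₀ hb₀
  -- the elements of rank one
  obtain ⟨t, c, Φ₁, Ψ₁, b₁, htpos, htinj, hinv₁, hΦ₁, hb₁, hδΦ₁, hδb₁⟩ := hrk
  have h1 := hKT1 Φ₁ Ψ₁ b₁ hinv₁ hΦ₁ hb₁
  have hirr2 : ∀ i, ∀ U : Submodule F (Fin n → F),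
      (∀ M ∈ h.map (pr ι n F i), ∀ u ∈ U, M.mulVec u ∈ U) → U = ⊥ ∨ U = ⊤ := by
    intro i
    refine hIRR n F R₀ (θF.restrictScalars ℤ) (θ₀.restrictScalars ℤ) hθ₀ (A i) (h.map (pr ι n F i))
      ((Φ₀ i).map δ₀ * Ψ₀ i) (pr_span h i _ h0) (hN i).1 (hN i).2 ?_ (hirr i)
    refine horiz θ₀ δ₀ _ (Φ₀ i) (Ψ₀ i) (hinv₀ i) (hΦ₀ i) ?_ hcomm
    ext a b
    exact hδ₀ _
  -- over the fraction fields
  have h0K := amap_span_tower (K := FractionRing R₀) _ _ h0
  have h1K := amap_span_tower (K := FractionRing R₁) _ _ h1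
  set j : R₁ →+* FractionRing R₁ := algebraMap R₁ (FractionRing R₁) with hj
  have hjinj : Function.Injective j := IsFractionRing.injective R₁ (FractionRing R₁)
  have hinj₀ : Function.Injective (algebraMap R₀ (FractionRing R₀)) := IsFractionRing.injective R₀ (FractionRing R₀)
  have htj : ∀ i, j (algebraMap ℂ R₁ ((t i : ℚ) : ℂ)) = ((t i : ℚ) : FractionRing R₁) := by
    intro i
    exact map_ratCast (j.comp (algebraMap ℂ R₁)) (t i)
  have hel : amap j (fun i => ((Φ₁ i).map δ₁ * Ψ₁ i, δ₁ ∘ (b₁ i) - ((Φ₁ i).map δ₁ * Ψ₁ i).mulVec (b₁ i)) : Aff ι n R₁) =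
      fun i => (((t i : ℚ) : FractionRing R₁) • Matrix.vecMulVec (fun a => j (Φ₁ i a c)) (fun a => j (Ψ₁ i c a)),
        -((((t i : ℚ) : FractionRing R₁) • (Matrix.vecMulVec (fun a => j (Φ₁ i a c)) (fun a => j (Ψ₁ i c a))).mulVec
          (fun a => j (b₁ i a))))) := by
    funext i
    have e1 : (Φ₁ i).map δ₁ * Ψ₁ i = (algebraMap ℂ R₁ ((t i : ℚ) : ℂ)) •
        Matrix.vecMulVec (fun a => Φ₁ i a c) (fun b => Ψ₁ i c b) := by
      rw [hδΦ₁ i, single_conj]
    refine Prod.ext ?_ ?_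
    · show ((Φ₁ i).map δ₁ * Ψ₁ i).map j = _
      rw [e1]
      ext a b
      simp only [Matrix.map_apply, Matrix.smul_apply, Matrix.vecMulVec_apply, smul_eq_mul, map_mul, htj]
    · show j ∘ (δ₁ ∘ (b₁ i) - ((Φ₁ i).map δ₁ * Ψ₁ i).mulVec (b₁ i)) = _
      rw [e1, hδb₁ i]
      ext a
      simp only [Function.comp_apply, zero_sub, map_neg, Pi.neg_apply, Matrix.mulVec,
        dotProduct, Matrix.smul_apply, Matrix.vecMulVec_apply, smul_eq_mul, map_sum, map_mul, htj, Pi.smul_apply,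
        Finset.mul_sum, mul_assoc]
  rw [hel] at h1K
  have hdot : ∀ i, (fun a => j (Ψ₁ i c a)) ⬝ᵥ (fun a => j (Φ₁ i a c)) = 1 := by
    intro i
    have h2 : Ψ₁ i * Φ₁ i = 1 := mul_eq_one_comm.1 (hinv₁ i)
    have h3 := congrFun (congrFun h2 c) c
    rw [Matrix.mul_apply, Matrix.one_apply_eq] at h3
    rw [dotProduct]
    simp only [← map_mul, ← map_sum, h3, map_one]
  have htop : ∀ i, h.map (pr ι n F i) = ⊤ := by
    intro i
    refine hLA n F (FractionRing R₁) (FractionRing R₀) (h.map (pr ι n F i)) ?_ (hirr2 i) ?_ ?_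
    · rintro _ ⟨x, hx, rfl⟩ _ ⟨y, hy, rfl⟩
      exact ⟨br x y, hbr x hx y hy, rfl⟩
    · refine ⟨_, pr_span h i _ h0K, ?_, ?_⟩
      · show (((Φ₀ i).map δ₀ * Ψ₀ i).map (algebraMap R₀ (FractionRing R₀))) ^ n = 0
        rw [← RingHom.mapMatrix_apply, ← map_pow, (hN i).1, map_zero]
      · show (((Φ₀ i).map δ₀ * Ψ₀ i).map (algebraMap R₀ (FractionRing R₀))) ^ (n - 1) ≠ 0
        rw [← RingHom.mapMatrix_apply, ← map_pow]
        intro h2
        apply (hN i).2
        ext a b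
        have h3 := congrFun (congrFun h2 a) b
        rw [RingHom.mapMatrix_apply, Matrix.map_apply, Matrix.zero_apply] at h3
        exact hinj₀ (h3.trans (map_zero _).symm)
    · refine ⟨_, _, hdot i, ?_⟩
      have h2 := Submodule.smul_mem _ (((t i : ℚ) : FractionRing R₁)⁻¹) (pr_span h i _ h1K)
      have h3 : ((t i : ℚ) : FractionRing R₁) ≠ 0 := by
        rw [← htj i]
        intro h4
        have h5 : ((t i : ℚ) : ℂ) = 0 := (map_eq_zero (j.comp (algebraMap ℂ R₁))).1 h4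
        exact (htpos i).ne' (by exact_mod_cast h5)
      rw [smul_smul, inv_mul_cancel₀ h3, one_smul] at h2
      exact h2
  have hall : ∀ x : Aff ι n F, (∀ i, (x i).1.trace = 0) → x ∈ h := by
    refine hML n ι F (FractionRing R₁) (θF.restrictScalars ℤ) A g h hn hbr hnab ?_ ?_ hnorat
    · intro i M
      have : M ∈ h.map (pr ι n F i) := by rw [htop i]; trivial
      obtain ⟨x, hx, hxM⟩ := this
      exact ⟨x, hx, hxM⟩
    · exact ⟨t, _, _, _, htpos, htinj, hdot, h1K⟩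
  refine hID ι n F p hp hpc ?_
  intro x hx
  have := hall x hx
  rw [← SetLike.mem_coe, hh] at this
  exact this

end Pool.Agent.E8helper41.AZ

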