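import Mathlib
import Pool.Agent.E8helper42.AZ.Stm4
import Pool.Agent.E8helper41.AZ.Main

/-!
# Project AZ: the assembly of the differential Galois argument with the exponential function
-/

set_option autoImplicit false

namespace Pool.Agent.E8helper41.AZ

open Pool.Agent.E8helper42.AZ

/-! ### subspaces cut out by linear functionals -/

section

variable {F R V W : Type} [Field F] [CommRing R] [Algebra F R] [AddCommGroup V] [Module F V] [AddCommGroup W] [Module R W]

lemma cut_one (β : V → W) (hadd : ∀ v w, β (v + w) = β v + β w) (hsmul : ∀ (a : F) v, β (a • v) = algebraMap F R a • β v)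
    (h : Submodule F V) (l : V →ₗ[F] F) (l' : W →ₗ[R] R) (hl : ∀ v, l' (β v) = algebraMap F R (l v))
    (y : W) (hy : y ∈ Submodule.span R (β '' (h : Set V))) (hy0 : l' y = 0) :
    y ∈ Submodule.span R (β '' ((h ⊓ LinearMap.ker l : Submodule F V) : Set V)) := by
  by_cases hv : ∃ v ∈ h, l v = 1
  · obtain ⟨v, hvh, hv1⟩ := hv
    have hneg : ∀ w, β (-w) = -β w := by
      intro w
      have h2 := hsmul (-1) w
      rw [map_neg, map_one, neg_smul, one_smul, neg_smul, one_smul] at h2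
      exact h2
    have key : ∀ y ∈ Submodule.span R (β '' (h : Set V)), y - l' y • β v ∈
        Submodule.span R (β '' ((h ⊓ LinearMap.ker l : Submodule F V) : Set V)) := by
      intro y hy
      induction hy using Submodule.span_induction with
      | mem x hx =>
        obtain ⟨u, hu, rfl⟩ := hx
        refine Submodule.subset_span ⟨u - l u • v, ⟨h.sub_mem hu (h.smul_mem _ hvh), ?_⟩, ?_⟩
        · rw [SetLike.mem_coe, LinearMap.mem_ker, map_sub, map_smul, hv1, smul_eq_mul, mul_one, sub_self]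
        · rw [sub_eq_add_neg, hadd, hneg, hsmul, hl, sub_eq_add_neg]
      | zero => simp
      | add x y _ _ hx hy =>
        have e : x + y - l' (x + y) • β v = (x - l' x • β v) + (y - l' y • β v) := by
          rw [map_add, add_smul]; abel
        rw [e]
        exact Submodule.add_mem _ hx hy
      | smul c x _ hx =>
        have e : c • x - l' (c • x) • β v = c • (x - l' x • β v) := by
          rw [map_smul, smul_eq_mul, smul_sub, mul_smul]
        rw [e]
        exact Submodule.smul_mem _ _ hx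
    have h2 := key y hy
    rwa [hy0, zero_smul, sub_zero] at h2
  · have h0 : ∀ v ∈ h, l v = 0 := by
      intro v hvh
      by_contra h1
      exact hv ⟨(l v)⁻¹ • v, h.smul_mem _ hvh, by rw [map_smul, smul_eq_mul, inv_mul_cancel₀ h1]⟩
    refine Submodule.span_mono ?_ hy
    rintro _ ⟨v, hvh, rfl⟩
    exact ⟨v, ⟨hvh, h0 v hvh⟩, rfl⟩

lemma cut_many (β : V → W) (hadd : ∀ v w, β (v + w) = β v + β w) (hsmul : ∀ (a : F) v, β (a • v) = algebraMap F R a • β v)
    {κ : Type} [DecidableEq κ] (l : κ → V →ₗ[F] F) (l' : κ → W →ₗ[R] R)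
    (hl : ∀ k v, l' k (β v) = algebraMap F R (l k v)) (s : Finset κ)
    (h : Submodule F V) (y : W) (hy : y ∈ Submodule.span R (β '' (h : Set V))) (hy0 : ∀ k ∈ s, l' k y = 0) :
    y ∈ Submodule.span R (β '' {v | v ∈ h ∧ ∀ k ∈ s, l k v = 0}) := by
  induction s using Finset.induction_on generalizing h with
  | empty =>
    refine Submodule.span_mono ?_ hy
    rintro _ ⟨v, hv, rfl⟩
    exact ⟨v, ⟨hv, by simp⟩, rfl⟩
  | insert a s ha ih =>
    have h1 := cut_one β hadd hsmul h (l a) (l' a) (hl a) y hy (hy0 a (Finset.mem_insert_self _ _))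
    have h2 := ih (h ⊓ LinearMap.ker (l a)) h1 (fun k hk => hy0 k (Finset.mem_insert_of_mem hk))
    refine Submodule.span_mono ?_ h2
    rintro _ ⟨v, ⟨hv, hvs⟩, rfl⟩
    refine ⟨v, ⟨hv.1, fun k hk => ?_⟩, rfl⟩
    rcases Finset.mem_insert.1 hk with rfl | hk
    · exact hv.2
    · exact hvs k hk

end

/-! ### the core of the argument -/

/-- the last part of the argument: a Lie algebra which contains the two special elements contains all elements of trace zero -/
theorem core (hLA : S_LA) (hML : S_ML) (hIRR : S_IRR2) (ι : Type) [Fintype ι] [DecidableEq ι] (n : ℕ)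
    (F R₀ R₁ : Type) [Field F] [CharZero F] [Algebra ℂ F]
    [CommRing R₀] [IsDomain R₀] [Algebra ℂ R₀] [Algebra F R₀] [IsScalarTower ℂ F R₀]
    [CommRing R₁] [IsDomain R₁] [Algebra ℂ R₁] [Algebra F R₁] [IsScalarTower ℂ F R₁]
    (θF : Derivation ℂ F F) (θ₀ δ₀ : Derivation ℂ R₀ R₀) (δ₁ : Derivation ℂ R₁ R₁) (hn : 2 ≤ n)
    (hθ₀ : ∀ a, θ₀ (algebraMap F R₀ a) = algebraMap F R₀ (θF a)) (hδ₀ : ∀ a, δ₀ (algebraMap F R₀ a) = 0)
    (hcomm : ∀ a, θ₀ (δ₀ a) = δ₀ (θ₀ a))
    (A : ι → Matrix (Fin n) (Fin n) F) (g : ι → Fin n → F)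
    (hirr : ∀ i, ∀ W : Submodule F (Fin n → F), (∀ w ∈ W, θF ∘ w - (A i).mulVec w ∈ W) → W = ⊥ ∨ W = ⊤)
    (hnorat : ∀ i, ¬ ∃ b : Fin n → F, θF ∘ b = (A i).mulVec b + g i)
    (h : Submodule F (Aff ι n F)) (hbr : ∀ x ∈ h, ∀ y ∈ h, br x y ∈ h) (hnab : ∀ x ∈ h, nab θF A g x ∈ h)
    (Φ₀ Ψ₀ : ι → Matrix (Fin n) (Fin n) R₀) (b₀ : ι → Fin n → R₀) (hinv₀ : ∀ i, Φ₀ i * Ψ₀ i = 1)
    (hΦ₀ : ∀ i, (Φ₀ i).map θ₀ = (A i).map (algebraMap F R₀) * Φ₀ i)
    (hN : ∀ i, ((Φ₀ i).map δ₀ * Ψ₀ i) ^ n = 0 ∧ ((Φ₀ i).map δ₀ * Ψ₀ i) ^ (n - 1) ≠ 0)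
    (h0 : (fun i => ((Φ₀ i).map δ₀ * Ψ₀ i, δ₀ ∘ (b₀ i) - ((Φ₀ i).map δ₀ * Ψ₀ i).mulVec (b₀ i)) : Aff ι n R₀) ∈
      Submodule.span R₀ (amap (algebraMap F R₀) '' (h : Set (Aff ι n F))))
    (t : ι → ℚ) (c : Fin n) (Φ₁ Ψ₁ : ι → Matrix (Fin n) (Fin n) R₁) (b₁ : ι → Fin n → R₁)
    (htpos : ∀ i, 0 < t i) (htinj : Function.Injective t) (hinv₁ : ∀ i, Φ₁ i * Ψ₁ i = 1)
    (hδΦ₁ : ∀ i, (Φ₁ i).map δ₁ = Φ₁ i * Matrix.single c c (algebraMap ℂ R₁ (t i : ℂ))) (hδb₁ : ∀ i, δ₁ ∘ (b₁ i) = 0)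
    (h1 : (fun i => ((Φ₁ i).map δ₁ * Ψ₁ i, δ₁ ∘ (b₁ i) - ((Φ₁ i).map δ₁ * Ψ₁ i).mulVec (b₁ i)) : Aff ι n R₁) ∈
      Submodule.span R₁ (amap (algebraMap F R₁) '' (h : Set (Aff ι n F)))) :
    ∀ x : Aff ι n F, (∀ i, (x i).1.trace = 0) → x ∈ h := by
  have hirr2 : ∀ i, ∀ U : Submodule F (Fin n → F),
      (∀ M ∈ h.map (pr ι n F i), ∀ u ∈ U, M.mulVec u ∈ U) → U = ⊥ ∨ U = ⊤ := by
    intro i
    refine hIRR n F R₀ (θF.restrictScalars ℤ) (θ₀.restrictScalars ℤ) hθ₀ (A i) (h.map (pr ι n F i))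
      ((Φ₀ i).map δ₀ * Ψ₀ i) (pr_span h i _ h0) (hN i).1 (hN i).2 ?_ (hirr i)
    refine horiz θ₀ δ₀ _ (Φ₀ i) (Ψ₀ i) (hinv₀ i) (hΦ₀ i) ?_ hcomm
    ext a b
    exact hδ₀ _
  -- over the fraction fields
  have h0K := amap_span_tower (K := FractionRing R₀) _ _ h0
  have h1K := amap_span_tower (K := FractionRing R₁) _ _ h1
  set j : R₁ →+* FractionRing R₁ := algebraMap R₁ (FractionRing R₁) with hj
  have hjinj : Function.Injective j := IsFractionRing.injective R₁ (FractionRing R₁)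
  have hinj₀ : Function.Injective (algebraMap R₀ (FractionRing R₀)) := IsFractionRing.injective R₀ (FractionRing R₀)
  have htj : ∀ i, j (algebraMap ℂ R₁ ((t i : ℚ) : ℂ)) = ((t i : ℚ) : FractionRing R₁) := by
    intro i
    exact map_ratCast (j.comp (algebraMap ℂ R₁)) (t i)
  have hel : amap j (fun i => ((Φ₁ i).map δ₁ * Ψ₁ i, δ₁ ∘ (b₁ i) - ((Φ₁ i).map δ₁ * Ψ₁ i).mulVec (b₁ i)) : Aff ι n R₁) =
      fun i => (((t i : ℚ) : FractionRing R₁) • Matrix.vecMulVec (fun a => j (Φ₁ i a c)) (fun a => j (Ψ₁ i c a)),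
        -((((t i : ℚ) : FractionRing R₁) • (Matrix.vecMulVec (fun a => j (Φ₁ i a c)) (fun a => j (Ψ₁ i c a))).mulVec
          (fun a => j (b₁ i a))))) := by
    funext i
    have e1 : (Φ₁ i).map δ₁ * Ψ₁ i = (algebraMap ℂ R₁ ((t i : ℚ) : ℂ)) •
        Matrix.vecMulVec (fun a => Φ₁ i a c) (fun b => Ψ₁ i c b) := by
      rw [hδΦ₁ i, single_conj]
    refine Prod.ext ?_ ?_
    · show ((Φ₁ i).map δ₁ * Ψ₁ i).map j = _
      rw [e1]
      ext a b
      simp only [Matrix.map_apply, Matrix.smul_apply, Matrix.vecMulVec_apply, smul_eq_mul, map_mul, htj]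
    · show j ∘ (δ₁ ∘ (b₁ i) - ((Φ₁ i).map δ₁ * Ψ₁ i).mulVec (b₁ i)) = _
      rw [e1, hδb₁ i]
      ext a
      simp only [Function.comp_apply, zero_sub, map_neg, Pi.neg_apply, Matrix.mulVec,
        dotProduct, Matrix.smul_apply, Matrix.vecMulVec_apply, smul_eq_mul, map_sum, map_mul, htj, Pi.smul_apply,
        Finset.mul_sum, mul_assoc]
  rw [hel] at h1K
  have hdot : ∀ i, (fun a => j (Ψ₁ i c a)) ⬝ᵥ (fun a => j (Φ₁ i a c)) = 1 := by
    intro i
    have h2 : Ψ₁ i * Φ₁ i = 1 := mul_eq_one_comm.1 (hinv₁ i)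
    have h3 := congrFun (congrFun h2 c) c
    rw [Matrix.mul_apply, Matrix.one_apply_eq] at h3
    rw [dotProduct]
    simp only [← map_mul, ← map_sum, h3, map_one]
  have htop : ∀ i, h.map (pr ι n F i) = ⊤ := by
    intro i
    refine hLA n F (FractionRing R₁) (FractionRing R₀) (h.map (pr ι n F i)) ?_ (hirr2 i) ?_ ?_
    · rintro _ ⟨x, hx, rfl⟩ _ ⟨y, hy, rfl⟩
      exact ⟨br x y, hbr x hx y hy, rfl⟩
    · refine ⟨_, pr_span h i _ h0K, ?_, ?_⟩
      · show (((Φ₀ i).map δ₀ * Ψ₀ i).map (algebraMap R₀ (FractionRing R₀))) ^ n = 0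
        rw [← RingHom.mapMatrix_apply, ← map_pow, (hN i).1, map_zero]
      · show (((Φ₀ i).map δ₀ * Ψ₀ i).map (algebraMap R₀ (FractionRing R₀))) ^ (n - 1) ≠ 0
        rw [← RingHom.mapMatrix_apply, ← map_pow]
        intro h2
        apply (hN i).2
        ext a b
        have h3 := congrFun (congrFun h2 a) b
        rw [RingHom.mapMatrix_apply, Matrix.map_apply, Matrix.zero_apply] at h3
        exact hinj₀ (h3.trans (map_zero _).symm)
    · refine ⟨_, _, hdot i, ?_⟩
      have h2 := Submodule.smul_mem _ (((t i : ℚ) : FractionRing R₁)⁻¹) (pr_span h i _ h1K)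
      have h3 : ((t i : ℚ) : FractionRing R₁) ≠ 0 := by
        rw [← htj i]
        intro h4
        have h5 : ((t i : ℚ) : ℂ) = 0 := (map_eq_zero (j.comp (algebraMap ℂ R₁))).1 h4
        exact (htpos i).ne' (by exact_mod_cast h5)
      rw [smul_smul, inv_mul_cancel₀ h3, one_smul] at h2
      exact h2
  refine hML n ι F (FractionRing R₁) (θF.restrictScalars ℤ) A g h hn hbr hnab ?_ ?_ hnorat
  · intro i M
    have : M ∈ h.map (pr ι n F i) := by rw [htop i]; trivial
    obtain ⟨x, hx, hxM⟩ := this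
    exact ⟨x, hx, hxM⟩
  · exact ⟨t, _, _, _, htpos, htinj, hdot, h1K⟩

/-! ### perfectness -/

lemma br_single {ι : Type} [DecidableEq ι] {n : ℕ} {F : Type} [Field F] (i : ι)
    (p q : Matrix (Fin n) (Fin n) F × (Fin n → F)) :
    br (Pi.single i p : Aff ι n F) (Pi.single i q) =
      Pi.single i (p.1 * q.1 - q.1 * p.1, p.1.mulVec q.2 - q.1.mulVec p.2) := by
  funext j
  by_cases hj : j = i
  · subst hj
    simp [br]
  · simp [br, Pi.single_eq_of_ne hj]

lemma perfect {ι : Type} [Fintype ι] [DecidableEq ι] {n : ℕ} {F : Type} [Field F] [CharZero F] (hn : 2 ≤ n)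
    (D : Submodule F (Aff ι n F))
    (hD : ∀ y z : Aff ι n F, (∀ i, (y i).1.trace = 0) → (∀ i, (z i).1.trace = 0) → br y z ∈ D)
    (x : Aff ι n F) (hx : ∀ i, (x i).1.trace = 0) : x ∈ D := by
  have hsing : ∀ i : ι, ∀ p : Matrix (Fin n) (Fin n) F × (Fin n → F), p.1.trace = 0 →
      (Pi.single i p : Aff ι n F) ∈ D := by
    intro i
    let Di : Submodule F (Matrix (Fin n) (Fin n) F × (Fin n → F)) :=
      D.comap (LinearMap.single F (fun _ : ι => Matrix (Fin n) (Fin n) F × (Fin n → F)) i)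
    have hDi : ∀ p q : Matrix (Fin n) (Fin n) F × (Fin n → F), p.1.trace = 0 → q.1.trace = 0 →
        (p.1 * q.1 - q.1 * p.1, p.1.mulVec q.2 - q.1.mulVec p.2) ∈ Di := by
      intro p q hp hq
      show (Pi.single i _ : Aff ι n F) ∈ D
      rw [← br_single]
      refine hD _ _ (fun j => ?_) (fun j => ?_)
      · by_cases hj : j = i
        · subst hj; simpa using hp
        · simp [Pi.single_eq_of_ne hj]
      · by_cases hj : j = i
        · subst hj; simpa using hq
        · simp [Pi.single_eq_of_ne hj]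
    have t1 : ∀ a b : Fin n, a ≠ b → (Matrix.single a b (1 : F)).trace = 0 := fun a b hab =>
      Matrix.trace_single_eq_of_ne a b 1 hab
    have t2 : ∀ a b : Fin n, (Matrix.single a a (1 : F) - Matrix.single b b (1 : F)).trace = 0 := fun a b => by
      rw [Matrix.trace_sub, Matrix.trace_single_eq_same, Matrix.trace_single_eq_same, sub_self]
    have h1 : ∀ a b : Fin n, a ≠ b → ((Matrix.single a b (1 : F), 0) : Matrix (Fin n) (Fin n) F × (Fin n → F)) ∈ Di := by
      intro a b hab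
      have h := hDi (Matrix.single a a (1 : F) - Matrix.single b b (1 : F), 0) (Matrix.single a b (1 : F), 0)
        (t2 a b) (t1 a b hab)
      have e : ((Matrix.single a a (1 : F) - Matrix.single b b (1 : F)) * Matrix.single a b (1 : F) -
          Matrix.single a b (1 : F) * (Matrix.single a a (1 : F) - Matrix.single b b (1 : F))) =
          (2 : F) • Matrix.single a b (1 : F) := by
        rw [sub_mul, mul_sub, Matrix.single_mul_single_same, Matrix.single_mul_single_of_ne _ _ _ _ hab.symm,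
          Matrix.single_mul_single_of_ne _ _ _ _ hab.symm, Matrix.single_mul_single_same, mul_one, sub_zero, zero_sub,
          sub_neg_eq_add, two_smul]
      have e2 : (Matrix.single a a (1 : F) - Matrix.single b b (1 : F)).mulVec (0 : Fin n → F) -
          (Matrix.single a b (1 : F)).mulVec (0 : Fin n → F) = 0 := by simp
      simp only [e, e2] at h
      have h3 := Di.smul_mem (2⁻¹ : F) h
      rw [Prod.smul_mk, smul_smul, inv_mul_cancel₀ two_ne_zero, one_smul, smul_zero] at h3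
      exact h3
    have h2 : ∀ a b : Fin n, a ≠ b →
        ((Matrix.single a a (1 : F) - Matrix.single b b (1 : F), 0) : Matrix (Fin n) (Fin n) F × (Fin n → F)) ∈ Di := by
      intro a b hab
      have h := hDi (Matrix.single a b (1 : F), 0) (Matrix.single b a (1 : F), 0) (t1 a b hab) (t1 b a hab.symm)
      have e : Matrix.single a b (1 : F) * Matrix.single b a (1 : F) - Matrix.single b a (1 : F) * Matrix.single a b (1 : F) =
          Matrix.single a a (1 : F) - Matrix.single b b (1 : F) := by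
        rw [Matrix.single_mul_single_same, Matrix.single_mul_single_same, mul_one]
      have e2 : (Matrix.single a b (1 : F)).mulVec (0 : Fin n → F) - (Matrix.single b a (1 : F)).mulVec (0 : Fin n → F) = 0 := by
        simp
      simp only [e, e2] at h
      exact h
    have h3 : ∀ a : Fin n, ((0, Pi.single a 1) : Matrix (Fin n) (Fin n) F × (Fin n → F)) ∈ Di := by
      intro a
      obtain ⟨b, hb⟩ : ∃ b : Fin n, b ≠ a := by
        have : Nontrivial (Fin n) := Fin.nontrivial_iff_two_le.2 hn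
        exact exists_ne a
      have h := hDi (Matrix.single a b (1 : F), 0) (0, Pi.single b 1) (t1 a b hb.symm) (by simp)
      have e : Matrix.single a b (1 : F) * 0 - 0 * Matrix.single a b (1 : F) = 0 := by simp
      have e2 : (Matrix.single a b (1 : F)).mulVec (Pi.single b 1) - (0 : Matrix (Fin n) (Fin n) F).mulVec 0 = Pi.single a 1 := by
        rw [Matrix.zero_mulVec, sub_zero]
        ext k
        by_cases hk : k = a
        · subst hk; simp
        · simp [hk, Ne.symm hk]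
      simp only [e, e2] at h
      exact h
    rintro ⟨M, v⟩ hM
    show (M, v) ∈ Di
    have hMv : ((M, v) : Matrix (Fin n) (Fin n) F × (Fin n → F)) = (M, 0) + (0, v) := by simp
    rw [hMv]
    refine Di.add_mem ?_ ?_
    · have c : Fin n := ⟨0, by omega⟩
      have hsum : ((M, 0) : Matrix (Fin n) (Fin n) F × (Fin n → F)) =
          ∑ a, ∑ b, M a b • ((Matrix.single a b (1 : F) - (if a = b then Matrix.single c c (1 : F) else 0), 0) :
            Matrix (Fin n) (Fin n) F × (Fin n → F)) := by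
        refine Prod.ext ?_ ?_
        · simp only [Prod.fst_sum, Prod.smul_fst, smul_sub, Finset.sum_sub_distrib, smul_ite, smul_zero,
            Finset.sum_ite_eq, Finset.mem_univ, if_true]
          rw [← Finset.sum_smul]
          have : ∑ a, M a a = 0 := hM
          rw [this, zero_smul, sub_zero]
          conv_lhs => rw [Matrix.matrix_eq_sum_single M]
          refine Finset.sum_congr rfl fun a _ => Finset.sum_congr rfl fun b _ => ?_
          rw [Matrix.smul_single, smul_eq_mul, mul_one]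
        · simp only [Prod.snd_sum, Prod.smul_snd, smul_zero, Finset.sum_const_zero]
      rw [hsum]
      refine Di.sum_mem fun a _ => Di.sum_mem fun b _ => Di.smul_mem _ ?_
      by_cases hab : a = b
      · subst hab
        rw [if_pos rfl]
        by_cases hac : a = c
        · subst hac
          rw [sub_self]
          exact Di.zero_mem
        · exact h2 a c hac
      · rw [if_neg hab, sub_zero]
        exact h1 a b hab
    · have hv : ((0, v) : Matrix (Fin n) (Fin n) F × (Fin n → F)) = ∑ a, v a • (0, Pi.single a 1) := by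
        refine Prod.ext ?_ ?_
        · simp [Prod.fst_sum]
        · simp only [Prod.snd_sum, Prod.smul_snd]
          ext k
          simp [Finset.sum_apply, Pi.single_apply]
      rw [hv]
      exact Di.sum_mem fun a _ => Di.smul_mem _ (h3 a)
  rw [← Finset.univ_sum_single x]
  exact D.sum_mem fun i _ => hsing i (x i) (hx i)

/-! ### the theorem -/

section

variable {ι : Type} {n : ℕ}

/-- extension by zero -/
def lift0 (F : Type) [Field F] : Aff ι n F →ₗ[F] Aff (Option ι) n F where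
  toFun x := fun o => o.elim 0 x
  map_add' x y := by funext o; cases o <;> simp
  map_smul' a x := by funext o; cases o <;> simp

/-- restriction -/
def res (S : Type) [CommRing S] : Aff (Option ι) n S →ₗ[S] Aff ι n S where
  toFun x := fun i => x (some i)
  map_add' _ _ := rfl
  map_smul' _ _ := rfl

/-- the coordinates of the block `none` -/
def co (S : Type) [CommRing S] (k : (Fin n × Fin n) ⊕ Fin n) : Aff (Option ι) n S →ₗ[S] S where
  toFun x := k.elim (fun q => (x none).1 q.1 q.2) (fun a => (x none).2 a)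
  map_add' _ _ := by rcases k with k | k <;> rfl
  map_smul' _ _ := by rcases k with k | k <;> rfl

lemma co_amap {F R : Type} [CommRing F] [CommRing R] [Algebra F R] (k : (Fin n × Fin n) ⊕ Fin n)
    (x : Aff (Option ι) n F) : co R k (amap (algebraMap F R) x) = algebraMap F R (co F k x) := by
  rcases k with k | k <;> rfl

/-- the index set of the equations -/
def eqs (c₀ : Fin n) : Finset ((Fin n × Fin n) ⊕ Fin n) := Finset.univ.erase (Sum.inl (c₀, c₀))

lemma eqs_iff {F : Type} [Field F] (c₀ : Fin n) (x : Aff (Option ι) n F) :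
    (∀ k ∈ eqs c₀, co F k x = 0) ↔ ∃ m : F, x none = (Matrix.single c₀ c₀ m, 0) := by
  constructor
  · intro h
    refine ⟨(x none).1 c₀ c₀, Prod.ext ?_ ?_⟩
    · ext a b
      by_cases hab : (a, b) = (c₀, c₀)
      · obtain ⟨rfl, rfl⟩ := Prod.mk.inj hab
        simp
      · have h1 := h (Sum.inl (a, b)) (by simp only [eqs, Finset.mem_erase, Finset.mem_univ, and_true]; exact fun h => hab (Sum.inl.inj h))
        have h2 : (x none).1 a b = 0 := h1
        have h3 : Matrix.single c₀ c₀ ((x none).1 c₀ c₀) a b = 0 := by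
          rw [Matrix.single_apply, if_neg]
          rintro ⟨rfl, rfl⟩
          exact hab rfl
        exact h2.trans h3.symm
    · ext a
      exact h (Sum.inr a) (by simp [eqs])
  · rintro ⟨m, hm⟩ k hk
    rcases k with ⟨a, b⟩ | a
    · show (x none).1 a b = 0
      rw [hm]
      show Matrix.single c₀ c₀ m a b = 0
      rw [Matrix.single_apply, if_neg]
      rintro ⟨rfl, rfl⟩
      simp [eqs] at hk
    · show (x none).2 a = 0
      rw [hm]
      rfl

/-- the diagonal matrix with one entry different from one -/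
def dg {S : Type} [CommRing S] (c₀ : Fin n) (E : S) : Matrix (Fin n) (Fin n) S :=
  Matrix.diagonal (Function.update 1 c₀ E)

lemma dg_mul {S : Type} [CommRing S] (c₀ : Fin n) {E E' : S} (h : E * E' = 1) :
    dg c₀ E * dg c₀ E' = 1 := by
  rw [dg, dg, Matrix.diagonal_mul_diagonal, ← Matrix.diagonal_one]
  congr 1
  funext a
  by_cases ha : a = c₀
  · subst ha; simp [h]
  · simp [Function.update_of_ne ha]

lemma dg_map {S : Type} [CommRing S] [Algebra ℂ S] (θ : Derivation ℂ S S) (c₀ : Fin n) (E : S) :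
    (dg c₀ E).map θ = Matrix.single c₀ c₀ (θ E) := by
  ext a b
  rw [Matrix.map_apply, dg, Matrix.diagonal_apply, Matrix.single_apply]
  by_cases ha : a = b
  · subst ha
    rw [if_pos rfl]
    by_cases hc : a = c₀
    · subst hc; simp
    · rw [Function.update_of_ne hc, if_neg (fun h => hc h.1.symm)]
      exact θ.map_one_eq_zero
  · rw [if_neg ha, if_neg (fun h => ha (h.1.symm.trans h.2)), map_zero]

lemma single_dg {S : Type} [CommRing S] (c₀ : Fin n) (m E : S) :
    Matrix.single c₀ c₀ m * dg c₀ E = Matrix.single c₀ c₀ (m * E) := by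
  ext a b
  rw [dg, Matrix.mul_diagonal, Matrix.single_apply, Matrix.single_apply]
  by_cases hb : c₀ = b
  · subst hb
    rw [Function.update_self]
    split_ifs <;> simp
  · rw [if_neg (fun h => hb h.2), if_neg (fun h => hb h.2), zero_mul]

end

theorem mainE : S_MAINE := by
  intro hSTAR hLA hML hKT hH hIRR ι _ _ n F R₀ R₁ _ _ _ _ _ _ _ _ _ _ _ _ _ θF θ₀ δ₀ θ₁ δ₁ hn hθ₀ hs₀ hδ₀ hcomm
    hθ₁ hs₁ hδ₁ A g e c₀ hirr hnorat hreg hrk hE₀ hE₁ p hp hst
  obtain ⟨h, hh, hbr, hnab⟩ := hH (Option ι) n F (θF.restrictScalars ℤ) p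
    (fun o => o.elim (Matrix.single c₀ c₀ e) A) (fun o => o.elim 0 g) hst
  have hKT0 := hKT hSTAR (Option ι) n F R₀ θF θ₀ δ₀ hθ₀ hs₀ hδ₀ p
    (fun o => o.elim (Matrix.single c₀ c₀ e) A) (fun o => o.elim 0 g) hst
  have hKT1 := hKT hSTAR (Option ι) n F R₁ θF θ₁ δ₁ hθ₁ hs₁ hδ₁ p
    (fun o => o.elim (Matrix.single c₀ c₀ e) A) (fun o => o.elim 0 g) hst
  rw [← hh] at hKT0 hKT1
  obtain ⟨Φ₀, Ψ₀, b₀, hinv₀, hΦ₀, hb₀, hN⟩ := hreg
  obtain ⟨t, c, Φ₁, Ψ₁, b₁, htpos, htinj, hinv₁, hΦ₁, hb₁, hδΦ₁, hδb₁⟩ := hrk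
  obtain ⟨E₀, E₀', hE₀1, hE₀2⟩ := hE₀
  obtain ⟨E₁, E₁', hE₁1, hE₁2⟩ := hE₁
  have hsingmap : ∀ (R : Type) [CommRing R] [Algebra F R], (Matrix.single c₀ c₀ e).map (algebraMap F R) =
      Matrix.single c₀ c₀ (algebraMap F R e) := fun R _ _ => Matrix.map_single _ _ _ _
  have h0 := hKT0 (fun o => o.elim (dg c₀ E₀) Φ₀) (fun o => o.elim (dg c₀ E₀') Ψ₀) (fun o => o.elim 0 b₀)
    (by rintro (_ | i); exacts [dg_mul c₀ hE₀1, hinv₀ i])
    (by
      rintro (_ | i)
      · show (dg c₀ E₀).map θ₀ = (Matrix.single c₀ c₀ e).map (algebraMap F R₀) * dg c₀ E₀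
        rw [dg_map, hsingmap, single_dg, hE₀2]
      · exact hΦ₀ i)
    (by
      rintro (_ | i)
      · show θ₀ ∘ (0 : Fin n → R₀) = ((Matrix.single c₀ c₀ e).map (algebraMap F R₀)).mulVec 0 +
          algebraMap F R₀ ∘ (0 : Fin n → F)
        ext a; simp
      · exact hb₀ i)
  have h1 := hKT1 (fun o => o.elim (dg c₀ E₁) Φ₁) (fun o => o.elim (dg c₀ E₁') Ψ₁) (fun o => o.elim 0 b₁)
    (by rintro (_ | i); exacts [dg_mul c₀ hE₁1, hinv₁ i])
    (by
      rintro (_ | i)
      · show (dg c₀ E₁).map θ₁ = (Matrix.single c₀ c₀ e).map (algebraMap F R₁) * dg c₀ E₁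
        rw [dg_map, hsingmap, single_dg, hE₁2]
      · exact hΦ₁ i)
    (by
      rintro (_ | i)
      · show θ₁ ∘ (0 : Fin n → R₁) = ((Matrix.single c₀ c₀ e).map (algebraMap F R₁)).mulVec 0 +
          algebraMap F R₁ ∘ (0 : Fin n → F)
        ext a; simp
      · exact hb₁ i)
  -- cut by the equations of the block `none`
  have hnone : ∀ (R : Type) [CommRing R] [Algebra ℂ R] (δ : Derivation ℂ R R) (E E' : R),
      (((dg c₀ E).map δ * dg c₀ E', δ ∘ (0 : Fin n → R) - ((dg c₀ E).map δ * dg c₀ E').mulVec 0) :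
        Matrix (Fin n) (Fin n) R × (Fin n → R)) = (Matrix.single c₀ c₀ (δ E * E'), 0) := by
    intro R _ _ δ E E'
    rw [dg_map, single_dg, Matrix.mulVec_zero, sub_zero]
    refine Prod.ext rfl ?_
    ext a
    simp
  have hzero : ∀ (R : Type) [CommRing R] (y : Aff (Option ι) n R) (m : R), y none = (Matrix.single c₀ c₀ m, 0) →
      ∀ k ∈ eqs c₀, co R k y = 0 := by
    rintro R _ y m hm (⟨a, b⟩ | a) hk
    · show (y none).1 a b = 0
      rw [hm]
      show Matrix.single c₀ c₀ m a b = 0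
      rw [Matrix.single_apply, if_neg]
      rintro ⟨rfl, rfl⟩
      simp [eqs] at hk
    · show (y none).2 a = 0
      rw [hm]
      rfl
  have h0' := cut_many (F := F) (R := R₀) (amap (algebraMap F R₀)) (amap_add _)
    (fun a v => amap_smul _ a v) (co F) (co R₀) (fun k v => co_amap k v) (eqs c₀) h _ h0
    (hzero R₀ _ _ (hnone R₀ δ₀ E₀ E₀'))
  have h1' := cut_many (F := F) (R := R₁) (amap (algebraMap F R₁)) (amap_add _)
    (fun a v => amap_smul _ a v) (co F) (co R₁) (fun k v => co_amap k v) (eqs c₀) h _ h1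
    (hzero R₁ _ _ (hnone R₁ δ₁ E₁ E₁'))
  -- the Lie algebra `h'`
  let h' : Submodule F (Aff (Option ι) n F) :=
    { carrier := {v | v ∈ h ∧ ∀ k ∈ eqs c₀, co F k v = 0}
      add_mem' := fun {a b} ha hb => ⟨h.add_mem ha.1 hb.1, fun k hk => by
        rw [map_add, ha.2 k hk, hb.2 k hk, add_zero]⟩
      zero_mem' := ⟨h.zero_mem, fun k _ => map_zero _⟩
      smul_mem' := fun c {x} hx => ⟨h.smul_mem c hx.1, fun k hk => by
        rw [map_smul, hx.2 k hk, smul_zero]⟩ }
  have hbr0 : ∀ x ∈ h', ∀ y ∈ h', br x y none = 0 := by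
    intro x hx y hy
    obtain ⟨m, hm⟩ := (eqs_iff c₀ x).1 hx.2
    obtain ⟨k, hk⟩ := (eqs_iff c₀ y).1 hy.2
    show ((x none).1 * (y none).1 - (y none).1 * (x none).1, (x none).1.mulVec (y none).2 - (y none).1.mulVec (x none).2) = 0
    rw [hm, hk]
    refine Prod.ext ?_ ?_
    · show Matrix.single c₀ c₀ m * Matrix.single c₀ c₀ k - Matrix.single c₀ c₀ k * Matrix.single c₀ c₀ m = 0
      rw [Matrix.single_mul_single_same, Matrix.single_mul_single_same, mul_comm, sub_self]
    · show (Matrix.single c₀ c₀ m).mulVec 0 - (Matrix.single c₀ c₀ k).mulVec 0 = 0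
      simp
  have hbr' : ∀ x ∈ h', ∀ y ∈ h', br x y ∈ h' := fun x hx y hy =>
    ⟨hbr x hx.1 y hy.1, (eqs_iff c₀ _).2 ⟨0, by rw [hbr0 x hx y hy, Matrix.single_zero]; rfl⟩⟩
  have hnab' : ∀ x ∈ h', nab (θF.restrictScalars ℤ) (fun o : Option ι => o.elim (Matrix.single c₀ c₀ e) A)
      (fun o => o.elim 0 g) x ∈ h' := by
    intro x hx
    refine ⟨hnab x hx.1, (eqs_iff c₀ _).2 ?_⟩
    obtain ⟨m, hm⟩ := (eqs_iff c₀ x).1 hx.2
    refine ⟨θF m, ?_⟩
    show ((x none).1.map θF + (x none).1 * Matrix.single c₀ c₀ e - Matrix.single c₀ c₀ e * (x none).1,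
      θF ∘ (x none).2 - (Matrix.single c₀ c₀ e).mulVec (x none).2 + (x none).1.mulVec (0 : Fin n → F)) = _
    rw [hm]
    refine Prod.ext ?_ ?_
    · show (Matrix.single c₀ c₀ m).map θF + Matrix.single c₀ c₀ m * Matrix.single c₀ c₀ e -
        Matrix.single c₀ c₀ e * Matrix.single c₀ c₀ m = Matrix.single c₀ c₀ (θF m)
      rw [Matrix.single_mul_single_same, Matrix.single_mul_single_same, mul_comm e m, add_sub_assoc, sub_self, add_zero]
      exact Matrix.map_single _ _ _ _
    · show θF ∘ (0 : Fin n → F) - (Matrix.single c₀ c₀ e).mulVec 0 + (Matrix.single c₀ c₀ m).mulVec 0 = 0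
      ext a
      simp
  -- the Lie algebra of the other blocks
  have hspan : ∀ (R : Type) [CommRing R] [Algebra F R] (y : Aff (Option ι) n R),
      y ∈ Submodule.span R (amap (algebraMap F R) '' {v | v ∈ h ∧ ∀ k ∈ eqs c₀, co F k v = 0}) →
      res R y ∈ Submodule.span R (amap (algebraMap F R) '' (h'.map (res F) : Set (Aff ι n F))) := by
    intro R _ _ y hy
    have h2 := Submodule.mem_map_of_mem (f := res R) hy
    rw [Submodule.map_span] at h2
    refine Submodule.span_mono ?_ h2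
    rintro _ ⟨_, ⟨v, hv, rfl⟩, rfl⟩
    exact ⟨res F v, ⟨v, hv, rfl⟩, rfl⟩
  have hcore := core hLA hML hIRR ι n F R₀ R₁ θF θ₀ δ₀ δ₁ hn hθ₀ hδ₀ hcomm A g hirr hnorat (h'.map (res F))
    (by
      rintro _ ⟨x, hx, rfl⟩ _ ⟨y, hy, rfl⟩
      exact ⟨br x y, hbr' x hx y hy, rfl⟩)
    (by
      rintro _ ⟨x, hx, rfl⟩
      exact ⟨_, hnab' x hx, rfl⟩)
    Φ₀ Ψ₀ b₀ hinv₀ hΦ₀ hN (hspan R₀ _ h0') t c Φ₁ Ψ₁ b₁ htpos htinj hinv₁ hδΦ₁ hδb₁ (hspan R₁ _ h1')
  -- brackets
  intro x hx hx0 P hP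
  have hxD : res F x ∈ h.comap (lift0 F) := by
    refine perfect hn (h.comap (lift0 F)) ?_ (res F x) (fun i => hx (some i))
    intro y z hy hz
    obtain ⟨Y, hY, rfl⟩ := hcore y hy
    obtain ⟨Z, hZ, rfl⟩ := hcore z hz
    show lift0 F (br (res F Y) (res F Z)) ∈ h
    have e1 : lift0 F (br (res F Y) (res F Z)) = br Y Z := by
      funext o
      cases o with
      | none => exact (hbr0 Y hY Z hZ).symm
      | some i => rfl
    rw [e1]
    exact hbr Y hY.1 Z hZ.1
  have hxl : lift0 F (res F x) = x := by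
    funext o
    cases o with
    | none => exact hx0.symm
    | some i => rfl
  have h3 : lift0 F (res F x) ∈ h := hxD
  rw [hxl, ← SetLike.mem_coe, hh] at h3
  exact h3 P hP

end Pool.Agent.E8helper41.AZ

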